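import Pool.Agent.DFM.Stmts

set_option autoImplicit false

namespace Pool.Agent.DFM.H19

open Set

theorem exW : ∃ (W : Type) (_ : LinearOrder W), Cardinal.mk W = Cardinal.aleph 1 ∧
    ∀ x : W, (Iio x).Countable := by
  refine ⟨(Cardinal.aleph 1).ord.ToType, inferInstance, Cardinal.mk_ord_toType _, ?_⟩
  intro x
  have h := Cardinal.mk_Iio_toType_ord_lt x
  rw [← Cardinal.le_aleph0_iff_set_countable]
  have h2 : Cardinal.mk (Iio x) < Order.succ Cardinal.aleph0 := by
    rw [Cardinal.succ_aleph0]
    exact h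
  exact Order.lt_succ_iff.mp h2

theorem unc_fib {W : Type} (hW : Cardinal.aleph0 < Cardinal.mk W) (f : W → ℤ) :
    ∃ c : ℤ, ¬ {x : W | f x = c}.Countable := by
  by_contra hc
  push Not at hc
  have h1 : (⋃ c : ℤ, {x : W | f x = c}).Countable := countable_iUnion hc
  have h2 : (⋃ c : ℤ, {x : W | f x = c}) = univ := by
    ext x
    simp
  rw [h2, countable_univ_iff, ← Cardinal.mk_le_aleph0_iff] at h1
  exact absurd hW (not_lt.mpr h1)

theorem ale (pkg : PkgStmt) : AleStmt := by
  intro κ μ hκ hμ
  classical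
  obtain ⟨W, _, hW, hco⟩ := exW
  have hWu : Cardinal.aleph0 < Cardinal.mk W := by
    rw [hW, ← Cardinal.succ_aleph0]
    exact Order.lt_succ _
  have hIm : Cardinal.mk κ.out = κ := Cardinal.mk_out κ
  have hJm : Cardinal.mk μ.out = μ := Cardinal.mk_out μ
  haveI : Infinite κ.out := Cardinal.infinite_iff.mpr (by rw [hIm]; exact hκ.le)
  haveI : Infinite μ.out := Cardinal.infinite_iff.mpr (by rw [hJm]; exact hμ.le)
  haveI : Nonempty W := by
    rw [← Cardinal.mk_ne_zero_iff, hW]
    exact (Cardinal.aleph_pos 1).ne'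
  have hWk : Cardinal.mk W ≤ Cardinal.mk κ.out := by
    rw [hW, hIm, ← Cardinal.succ_aleph0]
    exact Order.succ_le_of_lt hκ
  have hWm : Cardinal.mk W ≤ Cardinal.mk μ.out := by
    rw [hW, hJm, ← Cardinal.succ_aleph0]
    exact Order.succ_le_of_lt hμ
  obtain ⟨e1⟩ := (Cardinal.le_def _ _).mp hWk
  obtain ⟨e2⟩ := (Cardinal.le_def _ _).mp hWm
  have hr : ∀ x, Function.invFun e1 (e1 x) = x := Function.leftInverse_invFun e1.injective
  have hs : ∀ x, Function.invFun e2 (e2 x) = x := Function.leftInverse_invFun e2.injective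
  have hen : ∀ b : W, ∃ f : W → ℕ, InjOn f (Iio b) := fun b => countable_iff_exists_injOn.mp (hco b)
  choose en hen using hen
  obtain ⟨L, hL, a, b, hfin, hlcb, hcoi, hcfl, hcard, hmain⟩ := pkg κ.out μ.out
    (fun i j => if Function.invFun e1 i < Function.invFun e2 j then
      en (Function.invFun e2 j) (Function.invFun e1 i) else 0)
  refine ⟨L, hL, hlcb, hfin, hcoi.trans hIm, hcfl.trans hJm, ?_, ?_⟩
  · rw [hIm, hJm] at hcard
    exact hcard
  · rintro ⟨f, hf⟩
    have hmain := hmain f hf
    obtain ⟨c, hc⟩ := unc_fib hWu (fun x => f (a (e1 x)))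
    obtain ⟨d, hd⟩ := unc_fib hWu (fun x => f (b (e2 x)))
    have hinf : {x : W | f (a (e1 x)) = c}.Infinite := by
      intro h
      exact hc h.countable
    haveI := hinf.to_subtype
    obtain ⟨g⟩ : Nonempty (ℕ ↪ {x : W | f (a (e1 x)) = c}) := ⟨Infinite.natEmbedding _⟩
    have hex : ∃ β : W, f (b (e2 β)) = d ∧ ∀ n, (g n : W) < β := by
      by_contra hno
      push Not at hno
      apply hd
      have hcov : {x : W | f (b (e2 x)) = d} ⊆ ⋃ n, Iic (g n : W) := by
        intro x hx
        obtain ⟨n, hn⟩ := hno x hx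
        exact mem_iUnion.mpr ⟨n, hn⟩
      refine Set.Countable.mono hcov (countable_iUnion fun n => ?_)
      have hI : Iic (g n : W) = insert (g n : W) (Iio (g n : W)) := by
        ext x
        simp only [mem_Iic, mem_insert_iff, mem_Iio]
        exact le_iff_eq_or_lt
      rw [hI]
      exact (hco _).insert _
    obtain ⟨β, hβ, hlt⟩ := hex
    have hb : ∀ n, (en β (g n) : ℤ) < d - c := by
      intro n
      have h := hmain (e1 (g n)) (e2 β)
      rw [hr, hs, if_pos (hlt n), hβ] at h
      have h2 : f (a (e1 (g n))) = c := (g n).2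
      rw [h2] at h
      exact h
    have hinj : Function.Injective (fun n => en β (g n)) := by
      intro m n hmn
      have := hen β (hlt m) (hlt n) hmn
      exact g.injective (Subtype.ext this)
    have hfinr : (range (fun n => en β (g n))).Finite := by
      refine (finite_Iio (d - c).toNat).subset ?_
      rintro _ ⟨n, rfl⟩
      have := hb n
      simp only [mem_Iio]
      omega
    exact (infinite_range_of_injective hinj) hfinr

end Pool.Agent.DFM.H19
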